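import Pool.Agent.H334R5.Nd.Search
import Pool.Agent.H545R2.KS.Sat

/-!
# Refuting one threshold pattern nondeterministically, and `NP = coNP`
-/

set_option autoImplicit false

namespace Pool.Agent.H334R5.Nd

open Pool.Agent.NPC
open Pool.Agent.H251R5.PQ (Ver t_PAD)
open Pool.Agent.H334R5.Clo (num ext Left)
open Pool.Agent.H334R5.Cnt (usz bits_poly fpoly_of_poly)

/-- The block number `t` of length `b`. -/
def blk (b : ℕ) (r : List Bool) (t : ℕ) : List Bool := (r.drop (t * b)).take b

/-- Answers from guesses. -/
def ans (E : List (List Bool) → List Bool → ℕ) (ℓ : Polynomial ℕ) (b : ℕ) (r : List Bool)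
    (L : List (List Bool)) (t : ℕ) : ℕ :=
  E L ((blk b r t).take (ℓ.eval (bits L).length))

/-- If there is no witness then there are good guesses for all steps. -/
theorem exists_guess {A : Set (List Bool)} {q ℓ : Polynomial ℕ}
    {E : List (List Bool) → List Bool → ℕ} (hE : Refuter A q ℓ E) {f : List Bool → List Bool}
    {V : Ver} {x : List Bool} (hf : ∀ u, (f (bits (x, u)) ∈ A ↔ Left V (x, u)))
    (hx : ¬ ∃ w : List Bool, w.length = V.n x ∧ V.V x w = true) {n M b : ℕ} (hM : 1 ≤ M)
    (hn : ∀ u : List Bool, u.length ≤ V.n x → (f (bits (x, u))).length ≤ n)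
    (hq : q.eval n ≤ M)
    (hb : ∀ C : List (List Bool), (∀ u ∈ C, u.length ≤ V.n x) → C.length ≤ 2 * M →
      ℓ.eval (bits (qry f x C)).length ≤ b) :
    ∀ (T : ℕ) (s : Bool × ℕ × List (List Bool)), Shape V x M s.2 → s.1 = true →
      ∃ r : List Bool, r.length = T * b ∧ (iter f M x (ans E ℓ b r) T s).1 = true
  | 0, s, _, h => ⟨[], by simp, h⟩
  | T + 1, s, hs, h => by
    have hlen : ∀ u ∈ s.2.2, u.length ≤ V.n x := fun u hu => by rw [hs.len u hu]; omega
    obtain ⟨w, hw, hok⟩ : ∃ w : List Bool, w.length = b ∧
        (stepK f M x s (E (qry f x s.2.2) (w.take (ℓ.eval (bits (qry f x s.2.2)).length)))).1 =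
          true := by
      have hlb := hb s.2.2 hlen hs.short
      by_cases h1 : M < s.2.2.length
      · obtain ⟨w, hw, hw'⟩ := hE.complete (qry f x s.2.2) n (fun y hy => by
          refine ⟨?_, qry_not_mem hf hx _ y hy⟩
          rw [qry, List.mem_map] at hy
          obtain ⟨u, hu, rfl⟩ := hy
          exact hn u (hlen u (List.mem_of_mem_tail hu))) (by rw [qry_length]; omega)
        refine ⟨w ++ List.replicate (b - w.length) false, by simp; omega, ?_⟩
        refine stepK_true h (fun _ => ?_)
        rw [← hw, List.take_left' rfl]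
        exact hw'
      · exact ⟨List.replicate b false, by simp, stepK_true h (fun h2 => absurd h2 h1)⟩
    obtain ⟨r, hr, hr'⟩ := exists_guess hE hf hx hM hn hq hb T _ (stepK_shape hM hs _) hok
    refine ⟨w ++ r, by rw [List.length_append, hw, hr]; ring, ?_⟩
    rw [iter]
    have e0 : ans E ℓ b (w ++ r) (qry f x s.2.2) 0 =
        E (qry f x s.2.2) (w.take (ℓ.eval (bits (qry f x s.2.2)).length)) := by
      unfold ans blk
      rw [Nat.zero_mul, List.drop_zero, List.take_left' hw]
    have e1 : (fun L t => ans E ℓ b (w ++ r) L (t + 1)) = ans E ℓ b r := by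
      funext L t
      unfold ans blk
      have : (w ++ r).drop ((t + 1) * b) = r.drop (t * b) := by
        rw [show (t + 1) * b = w.length + t * b by rw [hw]; ring, ← List.drop_drop,
          List.drop_left' rfl]
      rw [this]
    rw [e0, e1]
    exact hr'

/-- One direction. -/
theorem conp_of_refuter {A : Set (List Bool)} {q ℓ : Polynomial ℕ}
    {E : List (List Bool) → List Bool → ℕ} (hA : NPHard A) (hE : Refuter A q ℓ E) :
    ∀ L : Set (List Bool), InNP L → InNP Lᶜ := by
  intro L hL
  obtain ⟨V, hV⟩ := t_PAD L hL
  obtain ⟨f, hf0, hfA⟩ := hA _ (Clo.left_inNPP V)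
  have pf : Poly (fun z : List Bool × List Bool => f (bits z)) :=
    (PIso.poly_iff.2 hf0).comp bits_poly
  have hf : ∀ x u : List Bool, (f (bits (x, u)) ∈ A ↔ Left V (x, u)) := fun x u => by
    rw [← hfA, bits_mem_lang]
  have pE : Poly (fun p : List (List Bool) × List Bool => E p.1 p.2) := by
    obtain ⟨F, hF, hFR⟩ := hE.poly
    exact Cnt.FPoly.poly ⟨F, hF, fun p => hFR p.1 p.2⟩
  -- the polynomials
  obtain ⟨qn, hqn⟩ := V.hn.sz_le
  obtain ⟨qf, hqf⟩ := pf.sz_le
  set pV : Polynomial ℕ := qn.comp (Polynomial.C 4 * Polynomial.X + Polynomial.C 1) with hpV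
  set nn : Polynomial ℕ := qf.comp (Polynomial.C 4 * Polynomial.X + Polynomial.C 4 * pV +
    Polynomial.C 3) with hnn
  set MM : Polynomial ℕ := q.comp nn + Polynomial.C 1 with hMM
  set BB : Polynomial ℕ := Polynomial.C 2 * MM * (Polynomial.C 4 * nn + Polynomial.C 2) +
    Polynomial.C 1 with hBB
  set bb : Polynomial ℕ := ℓ.comp BB with hbb
  set TT : Polynomial ℕ := pV * (MM + Polynomial.C 1) + Polynomial.C 2 with hTT
  have eMM : ∀ k, MM.eval k = q.eval (nn.eval k) + 1 := fun k => by
    rw [hMM]; simp only [Polynomial.eval_add, Polynomial.eval_comp, Polynomial.eval_C]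
  have eBB : ∀ k, BB.eval k = 2 * MM.eval k * (4 * nn.eval k + 2) + 1 := fun k => by
    rw [hBB]; simp only [Polynomial.eval_add, Polynomial.eval_mul, Polynomial.eval_C]
  have ebb : ∀ k, bb.eval k = ℓ.eval (BB.eval k) := fun k => by
    rw [hbb, Polynomial.eval_comp]
  have eTT : ∀ k, TT.eval k = pV.eval k * (MM.eval k + 1) + 2 := fun k => by
    rw [hTT]; simp only [Polynomial.eval_add, Polynomial.eval_mul, Polynomial.eval_C]
  have hVn : ∀ x : List Bool, V.n x ≤ pV.eval x.length := by
    intro x
    have h1 := hqn x
    have h2 := length_lt_sz (List.replicate (V.n x) ())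
    rw [List.length_replicate] at h2
    have h3 : sz x ≤ 4 * x.length + 1 := sz_listBool_le x
    have h4 := eval_mono qn h3
    rw [hpV, Polynomial.eval_comp]
    simp only [Polynomial.eval_add, Polynomial.eval_mul, Polynomial.eval_C, Polynomial.eval_X]
    omega
  have hfn : ∀ x u : List Bool, u.length ≤ V.n x →
      (f (bits (x, u))).length ≤ nn.eval x.length := by
    intro x u hu
    have h1 := hqf (x, u)
    have h2 := length_lt_sz (f (bits (x, u)))
    have h3 : sz ((x, u) : List Bool × List Bool) ≤ 4 * x.length + 4 * pV.eval x.length + 3 := by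
      have e1 := sz_listBool_le x
      have e2 := sz_listBool_le u
      have e3 := hVn x
      rw [sz_pair]
      omega
    have h4 := eval_mono qf h3
    rw [hnn, Polynomial.eval_comp]
    simp only [Polynomial.eval_add, Polynomial.eval_mul, Polynomial.eval_C, Polynomial.eval_X]
    omega
  have hBn : ∀ x : List Bool, ∀ C : List (List Bool), (∀ u ∈ C, u.length ≤ V.n x) →
      C.length ≤ 2 * MM.eval x.length → (bits (qry f x C)).length ≤ BB.eval x.length := by
    intro x C hC hCl
    rw [bits_length, eBB]
    have h1 := sz_le_length_mul (qry f x C) (4 * nn.eval x.length + 1) (by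
      intro y hy
      rw [qry, List.mem_map] at hy
      obtain ⟨u, hu, rfl⟩ := hy
      have e1 := hfn x u (hC u (List.mem_of_mem_tail hu))
      have e2 := sz_listBool_le (f (bits (x, u)))
      omega)
    have h2 : (qry f x C).length ≤ 2 * MM.eval x.length := by
      rw [qry_length]; omega
    have h3 := Nat.mul_le_mul_right (4 * nn.eval x.length + 2) h2
    have h4 : 4 * nn.eval x.length + 1 + 1 = 4 * nn.eval x.length + 2 := by ring
    rw [h4] at h1
    omega
  have hM1 : ∀ k, 1 ≤ MM.eval k := fun k => by rw [eMM]; omega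
  have hbl : ∀ x : List Bool, ∀ C : List (List Bool), (∀ u ∈ C, u.length ≤ V.n x) →
      C.length ≤ 2 * MM.eval x.length → ℓ.eval (bits (qry f x C)).length ≤ bb.eval x.length := by
    intro x C h1 h2
    rw [ebb]
    exact eval_mono ℓ (hBn x C h1 h2)
  -- the run
  set fin : List Bool → List Bool → Bool × ℕ × List (List Bool) := fun x r =>
    run f V (MM.eval x.length) (TT.eval x.length) x (ans E ℓ (bb.eval x.length) r) with hfin
  have fin_eq : ∀ x r, fin x r = iter f (MM.eval x.length) x (ans E ℓ (bb.eval x.length) r)
      (TT.eval x.length) (true, V.n x, [[]]) := fun x r => foldl_iter _ _ _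
  have hshape : ∀ x r, Shape V x (MM.eval x.length) (fin x r).2 := by
    intro x r
    rw [fin_eq]
    exact iter_shape (hM1 _) _ _ _ (init_shape V x (hM1 _))
  have hrem : ∀ x r, (fin x r).2.1 = 0 := by
    intro x r
    rw [fin_eq]
    refine iter_rem _ _ _ ?_
    unfold pot
    simp only [List.length_cons, List.length_nil]
    rw [eTT]
    have := Nat.mul_le_mul_right (MM.eval x.length + 1) (hVn x)
    omega
  -- the run is polynomial
  have uX : ∀ (P : Polynomial ℕ), UPoly (fun z : List Bool × List Bool => P.eval z.1.length) :=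
    fun P => (UPoly.length (Poly.fst Poly.id)).eval P
  have pfin : Poly (fun z : List Bool × List Bool => fin z.1 z.2) := by
    refine poly_run pf V (K := fun z => ans E ℓ (bb.eval z.1.length) z.2) ?_
      (Poly.fst Poly.id) (uX MM) (uX TT) (fun z => hM1 _)
    unfold ans blk
    have hb : Poly (fun p : (List Bool × List Bool) × List (List Bool) × ℕ =>
        bb.eval p.1.1.length) := (uX bb).toPoly.comp (Poly.fst Poly.id)
    have hL : Poly (fun p : (List Bool × List Bool) × List (List Bool) × ℕ => p.2.1) :=
      Poly.fst (Poly.snd Poly.id)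
    refine Poly.comp (g := fun p : List (List Bool) × List Bool => E p.1 p.2)
      (f := fun p : (List Bool × List Bool) × List (List Bool) × ℕ => (p.2.1,
        ((p.1.2.drop (p.2.2 * bb.eval p.1.1.length)).take (bb.eval p.1.1.length)).take
          (ℓ.eval (bits p.2.1).length))) pE (Poly.pair hL ?_)
    exact Clo.poly_take (Clo.poly_take (Clo.poly_drop (Poly.snd (Poly.fst Poly.id))
      (Poly.mul (Poly.snd (Poly.snd Poly.id)) hb)) hb) ((usz hL).eval ℓ).toPoly
  have pacc : Poly (fun y : List Bool => [decide ((unpair y).2.length =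
      TT.eval (unpair y).1.length * bb.eval (unpair y).1.length) &&
      ((fin (unpair y).1 (unpair y).2).1 && (fin (unpair y).1 (unpair y).2).2.2.all
        (fun w => !V.V (unpair y).1 w))]) := by
    have h0 : Poly (fun y : List Bool => fin (unpair y).1 (unpair y).2) :=
      Poly.comp (g := fun z : List Bool × List Bool => fin z.1 z.2) pfin poly_unpair
    have h1 : Poly (fun y : List Bool => (unpair y).1) := Poly.fst poly_unpair
    refine Poly.cons (Poly.and (Poly.decide_eq (Poly.length (Poly.snd poly_unpair))
      (Poly.mul (((UPoly.length h1).eval TT).toPoly) (((UPoly.length h1).eval bb).toPoly)))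
      (Poly.and (Poly.fst h0) (Poly.all (l := fun y : List Bool =>
        (fin (unpair y).1 (unpair y).2).2.2) (p := fun y w => !V.V (unpair y).1 w)
        (Poly.snd (Poly.snd h0)) ?_))) (NPC.Poly.const [])
    refine Poly.not ?_
    exact Poly.comp (g := fun t : List Bool × List Bool => V.V t.1 t.2)
      (f := fun p : List Bool × List Bool => ((unpair p.1).1, p.2)) V.hV
      (Poly.pair (Poly.fst (poly_unpair.comp (Poly.fst Poly.id))) (Poly.snd Poly.id))
  refine ⟨_, TT * bb, PIso.poly_iff.1 pacc, fun x => ?_⟩
  simp only [unpair_pairBits]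
  have hlen : (TT * bb).eval x.length = TT.eval x.length * bb.eval x.length := by
    rw [Polynomial.eval_mul]
  rw [Set.mem_compl_iff]
  constructor
  · intro hx
    rw [hV x] at hx
    obtain ⟨r, hr, hr'⟩ := exists_guess hE (hf x) hx (hM1 x.length) (hfn x)
      (M := MM.eval x.length) (by rw [eMM]; omega) (hbl x) (TT.eval x.length)
      (true, V.n x, [[]]) (init_shape V x (hM1 _)) rfl
    refine ⟨r, by rw [hlen, hr], ?_⟩
    rw [← fin_eq] at hr'
    simp only [hr, hr', decide_true, Bool.true_and, List.cons.injEq, and_true, List.all_eq_true,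
      Bool.not_eq_true']
    intro w hw
    by_contra hcon
    rw [Bool.not_eq_false] at hcon
    refine hx ⟨w, ?_, hcon⟩
    have := (hshape x r).len w hw
    rw [hrem] at this
    omega
  · rintro ⟨r, -, hacc⟩ hx
    simp only [List.cons.injEq, and_true, Bool.and_eq_true, decide_eq_true_eq, List.all_eq_true,
      Bool.not_eq_true'] at hacc
    obtain ⟨hr, hok, hall⟩ := hacc
    have hw0 := (hV x).1 hx
    obtain ⟨w, ⟨hw, hVw⟩, hmax⟩ : ∃ w : List Bool, (w.length = V.n x ∧ V.V x w = true) ∧
        ∀ w' : List Bool, (w'.length = V.n x ∧ V.V x w' = true) → num w' ≤ num w := by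
      have hfinite : {w : List Bool | w.length = V.n x ∧ V.V x w = true}.Finite :=
        (List.finite_length_eq Bool (V.n x)).subset (fun w hw => hw.1)
      obtain ⟨w, hw, hmax⟩ := Set.exists_max_image _ num hfinite hw0
      exact ⟨w, hw, fun w' hw' => hmax w' hw'⟩
    have hmax' : ∀ w' : List Bool, w'.length = V.n x → V.V x w' = true → num w' ≤ num w :=
      fun w' h h' => hmax w' ⟨h, h'⟩
    have hmem : Mem V x (fin x r).2 := by
      rw [fin_eq] at hok ⊢
      refine iter_mem (hM1 _) (hf x) _ _ _ (init_shape V x (hM1 _)) (fun w _ _ _ => by simp) ?_ hok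
      intro C t h1 _ h3 h4
      refine hE.sound _ _ ?_
      have e1 := hbl x C h1 h3
      have e2 : (blk (bb.eval x.length) r t).length = bb.eval x.length := by
        unfold blk
        rw [List.length_take, List.length_drop, hr]
        have e3 : (t + 1) * bb.eval x.length ≤ TT.eval x.length * bb.eval x.length :=
          Nat.mul_le_mul_right _ h4
        rw [add_mul, one_mul] at e3
        omega
      rw [List.length_take, e2]
      omega
    have h2 := hmem w hw hVw hmax'
    rw [hrem, Nat.sub_zero, ← hw, List.take_length] at h2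
    have h3 := hall w h2
    rw [hVw] at h3
    exact absurd h3 (by decide)

/-- The refuter obtained from verifiers for `A` and for its complement. -/
def ref (V W : Ver) (L : List (List Bool)) (w : List Bool) : ℕ :=
  L.head?.elim 1 (fun x =>
    if w.headD false = true then (if V.V x (w.tail.take (V.n x)) = true then 0 else L.length + 1)
    else (if W.V x (w.tail.take (W.n x)) = true then L.length else L.length + 1))

theorem ref_poly (V W : Ver) : Poly (fun p : List (List Bool) × List Bool => ref V W p.1 p.2) := by
  unfold ref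
  refine Poly.optElim (o := fun p : List (List Bool) × List Bool => p.1.head?)
    (g := fun _ => 1) (h := fun p x => if p.2.headD false = true then
      (if V.V x (p.2.tail.take (V.n x)) = true then 0 else p.1.length + 1)
      else (if W.V x (p.2.tail.take (W.n x)) = true then p.1.length else p.1.length + 1))
    (Poly.head? (Poly.fst Poly.id)) (NPC.Poly.const 1) ?_
  have h1 : Poly (fun p : (List (List Bool) × List Bool) × List Bool => p.2) := Poly.snd Poly.id
  have h2 : Poly (fun p : (List (List Bool) × List Bool) × List Bool => p.1.2) :=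
    Poly.snd (Poly.fst Poly.id)
  have h3 : Poly (fun p : (List (List Bool) × List Bool) × List Bool => p.1.1.length) :=
    Poly.length (Poly.fst (Poly.fst Poly.id))
  have h4 : Poly (fun p : (List (List Bool) × List Bool) × List Bool => p.1.1.length + 1) :=
    Poly.add h3 (NPC.Poly.const 1)
  have hv : ∀ U : Ver, Poly (fun p : (List (List Bool) × List Bool) × List Bool =>
      U.V p.2 (p.1.2.tail.take (U.n p.2))) := fun U =>
    Poly.comp (g := fun t : List Bool × List Bool => U.V t.1 t.2)
      (f := fun p : (List (List Bool) × List Bool) × List Bool =>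
        (p.2, p.1.2.tail.take (U.n p.2))) U.hV
      (Poly.pair h1 (Clo.poly_take (Poly.tail h2) (U.hn.toPoly.comp h1)))
  have hh : Poly (fun p : (List (List Bool) × List Bool) × List Bool => p.1.2.headD false) := by
    have e : (fun p : (List (List Bool) × List Bool) × List Bool => p.1.2.headD false) =
        fun p => p.1.2.head?.getD false := by
      funext p
      cases p.1.2 <;> rfl
    rw [e]
    exact Poly.optGetD (Poly.head? h2) (NPC.Poly.const false)
  have hd : ∀ {b : (List (List Bool) × List Bool) × List Bool → Bool}, Poly b →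
      Poly (fun a => decide (b a = true)) := fun {b} hb =>
    hb.congr fun a => Bool.decide_eq_true.symm
  exact Poly.ite (hd hh) (Poly.ite (hd (hv V)) (NPC.Poly.const 0) h4)
    (Poly.ite (hd (hv W)) h3 h4)

theorem refuter_of_conp {A : Set (List Bool)} (h1 : InNP A) (h2 : InNP Aᶜ) :
    ∃ (q ℓ : Polynomial ℕ) (E : List (List Bool) → List Bool → ℕ), Refuter A q ℓ E := by
  obtain ⟨V, hV⟩ := t_PAD A h1
  obtain ⟨W, hW⟩ := t_PAD Aᶜ h2
  have hbd : ∀ U : Ver, ∃ p : Polynomial ℕ, ∀ x, U.n x ≤ p.eval (sz x) := by
    intro U
    obtain ⟨p, hp⟩ := U.hn.sz_le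
    refine ⟨p, fun x => ?_⟩
    have h1 := hp x
    have h2 := length_lt_sz (List.replicate (U.n x) ())
    rw [List.length_replicate] at h2
    omega
  obtain ⟨p1, hp1⟩ := hbd V
  obtain ⟨p2, hp2⟩ := hbd W
  have hlen : ∀ (x : List Bool) (L : List (List Bool)) (w : List Bool),
      w.length = (p1 + p2 + 1).eval (bits (x :: L)).length →
        (w.tail.take (V.n x)).length = V.n x ∧ (w.tail.take (W.n x)).length = W.n x := by
    intro x L w hw
    have e1 : sz x ≤ (bits (x :: L)).length := by
      rw [bits_length, sz_list_cons]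
      omega
    have e2 := (hp1 x).trans (eval_mono p1 e1)
    have e3 := (hp2 x).trans (eval_mono p2 e1)
    have e4 : w.length = p1.eval (bits (x :: L)).length + p2.eval (bits (x :: L)).length + 1 := by
      rw [hw]
      simp [Polynomial.eval_add]
    simp only [List.length_take, List.length_tail]
    omega
  refine ⟨1, p1 + p2 + 1, ref V W, ?_, ?_, ?_⟩
  · obtain ⟨F, hF, h⟩ := fpoly_of_poly (ref_poly V W)
    exact ⟨F, hF, fun L r => h (L, r)⟩
  · intro L w hw hpat
    cases L with
    | nil => exact absurd hpat.1 (by simp [ref])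
    | cons x L =>
      obtain ⟨e1, e2⟩ := hlen x L w hw
      have hr : ref V W (x :: L) w = if w.headD false = true then
          (if V.V x (w.tail.take (V.n x)) = true then 0 else (x :: L).length + 1)
          else (if W.V x (w.tail.take (W.n x)) = true then (x :: L).length
            else (x :: L).length + 1) := rfl
      rw [hr] at hpat
      split_ifs at hpat with g1 g2 g2
      · exact hpat.2.2 x (by simp) ((hV x).2 ⟨_, e1, g2⟩)
      · have := hpat.1
        omega
      · exact ((hW x).2 ⟨_, e2, g2⟩) (hpat.2.1 x (by simp))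
      · have := hpat.1
        omega
  · intro L n hL hq
    cases L with
    | nil => simp at hq
    | cons x L =>
      obtain ⟨u, hu, hu'⟩ := (hW x).1 (hL x (by simp)).2
      have e1 : sz x ≤ (bits (x :: L)).length := by
        rw [bits_length, sz_list_cons]
        omega
      have e3 := (hp2 x).trans (eval_mono p2 e1)
      refine ⟨false :: (u ++ List.replicate ((p1 + p2 + 1).eval (bits (x :: L)).length - 1 -
        u.length) false), ?_, ?_⟩
      · have e4 : (p1 + p2 + 1).eval (bits (x :: L)).length =
            p1.eval (bits (x :: L)).length + p2.eval (bits (x :: L)).length + 1 := by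
          simp [Polynomial.eval_add]
        rw [e4]
        simp only [List.length_cons, List.length_append, List.length_replicate]
        omega
      · unfold ref
        simp only [List.head?_cons, Option.elim_some, List.headD_cons, Bool.false_eq_true,
          if_false, List.tail_cons]
        have e5 : (u ++ List.replicate ((p1 + p2 + 1).eval (bits (x :: L)).length - 1 -
            u.length) false).take (W.n x) = u := List.take_left' hu
        rw [if_pos (by rw [e5]; exact hu')]

/-- `NP = coNP` if and only if threshold patterns of some `NP`-hard set can be refuted. -/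
theorem refuter_iff :
    (∃ (A : Set (List Bool)) (q ℓ : Polynomial ℕ) (E : List (List Bool) → List Bool → ℕ),
      NPHard A ∧ Refuter A q ℓ E) ↔ ∀ L : Set (List Bool), InNP L → InNP Lᶜ := by
  constructor
  · rintro ⟨A, q, ℓ, E, hA, hE⟩
    exact conp_of_refuter hA hE
  · intro h
    obtain ⟨h1, h2⟩ := Pool.Agent.NPC.H545KS.sat_complete
    obtain ⟨q, ℓ, E, hE⟩ := refuter_of_conp h1 (h _ h1)
    exact ⟨_, q, ℓ, E, h2, hE⟩

end Pool.Agent.H334R5.Nd
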