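import Pool.Agent.H334R5.Nd.Adv
import Pool.Agent.NPC.Classes

/-!
# Excluding one threshold pattern in polynomial time, and `P = NP`
-/

set_option autoImplicit false

namespace Pool.Agent.H334R5.Nd

open Pool.Agent.NPC
open Pool.Agent.H251R5.PQ (Ver t_PAD)
open Pool.Agent.H334R5.Clo (num ext Left)
open Pool.Agent.H334R5.Cnt (usz bits_poly fpoly_of_poly)

/-- A polynomial-time algorithm which excludes one threshold pattern of `A`: it gets a list `L` of
`m ≥ q(n)` strings of length at most `n`. If the list has a threshold pattern then the output is a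
number `k ≤ m` such that the list does not have the threshold pattern `k`. -/
structure DetExcluder (A : Set (List Bool)) (q : Polynomial ℕ)
    (E : List (List Bool) → ℕ) : Prop where
  poly : ∃ F : List Bool → List Bool, PolyTime F ∧
    ∀ L : List (List Bool), F (bits L) = bits (E L)
  excl : ∀ (L : List (List Bool)) (n : ℕ), (∀ x ∈ L, x.length ≤ n) → q.eval n ≤ L.length →
    (∃ j, Pattern A L j) → E L ≤ L.length ∧ ¬ Pattern A L (E L)

theorem p_of_excluder {A : Set (List Bool)} {q : Polynomial ℕ}
    {E : List (List Bool) → ℕ} (hA : NPHard A) (hE : DetExcluder A q E) :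
    ∀ L : Set (List Bool), InNP L → InP L := by
  intro L hL
  obtain ⟨V, hV⟩ := t_PAD L hL
  obtain ⟨f, hf0, hfA⟩ := hA _ (Clo.left_inNPP V)
  have pf : Poly (fun z : List Bool × List Bool => f (bits z)) :=
    (PIso.poly_iff.2 hf0).comp bits_poly
  have hf : ∀ x u : List Bool, (f (bits (x, u)) ∈ A ↔ Left V (x, u)) := fun x u => by
    rw [← hfA, bits_mem_lang]
  have pE : Poly E := by
    obtain ⟨F, hF, hFR⟩ := hE.poly
    exact Cnt.FPoly.poly ⟨F, hF, hFR⟩
  -- the polynomials
  obtain ⟨qn, hqn⟩ := V.hn.sz_le
  obtain ⟨qf, hqf⟩ := pf.sz_le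
  set pV : Polynomial ℕ := qn.comp (Polynomial.C 4 * Polynomial.X + Polynomial.C 1) with hpV
  set nn : Polynomial ℕ := qf.comp (Polynomial.C 4 * Polynomial.X + Polynomial.C 4 * pV +
    Polynomial.C 3) with hnn
  set MM : Polynomial ℕ := q.comp nn + Polynomial.C 1 with hMM
  set TT : Polynomial ℕ := pV * (MM + Polynomial.C 1) + Polynomial.C 2 with hTT
  have eMM : ∀ k, MM.eval k = q.eval (nn.eval k) + 1 := fun k => by
    rw [hMM]; simp only [Polynomial.eval_add, Polynomial.eval_comp, Polynomial.eval_C]
  have eTT : ∀ k, TT.eval k = pV.eval k * (MM.eval k + 1) + 2 := fun k => by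
    rw [hTT]; simp only [Polynomial.eval_add, Polynomial.eval_mul, Polynomial.eval_C]
  have hVn : ∀ x : List Bool, V.n x ≤ pV.eval x.length := by
    intro x
    have h1 := hqn x
    have h2 := length_lt_sz (List.replicate (V.n x) ())
    rw [List.length_replicate] at h2
    have h3 : sz x ≤ 4 * x.length + 1 := sz_listBool_le x
    have h4 := eval_mono qn h3
    rw [hpV, Polynomial.eval_comp]
    simp only [Polynomial.eval_add, Polynomial.eval_mul, Polynomial.eval_C, Polynomial.eval_X]
    omega
  have hfn : ∀ x u : List Bool, u.length ≤ V.n x →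
      (f (bits (x, u))).length ≤ nn.eval x.length := by
    intro x u hu
    have h1 := hqf (x, u)
    have h2 := length_lt_sz (f (bits (x, u)))
    have h3 : sz ((x, u) : List Bool × List Bool) ≤ 4 * x.length + 4 * pV.eval x.length + 3 := by
      have e1 := sz_listBool_le x
      have e2 := sz_listBool_le u
      have e3 := hVn x
      rw [sz_pair]
      omega
    have h4 := eval_mono qf h3
    rw [hnn, Polynomial.eval_comp]
    simp only [Polynomial.eval_add, Polynomial.eval_mul, Polynomial.eval_C, Polynomial.eval_X]
    omega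
  have hM1 : ∀ k, 1 ≤ MM.eval k := fun k => by rw [eMM]; omega
  -- the run
  set fin : List Bool → Bool × ℕ × List (List Bool) := fun x =>
    run f V (MM.eval x.length) (TT.eval x.length) x (fun L _ => E L) with hfin
  have fin_eq : ∀ x, fin x = iter f (MM.eval x.length) x (fun L _ => E L)
      (TT.eval x.length) (true, V.n x, [[]]) := fun x => foldl_iter _ (fun L _ => E L) _
  have hshape : ∀ x, Shape V x (MM.eval x.length) (fin x).2 := by
    intro x
    rw [fin_eq]
    exact iter_shape (hM1 _) _ _ _ (init_shape V x (hM1 _))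
  have hrem : ∀ x, (fin x).2.1 = 0 := by
    intro x
    rw [fin_eq]
    refine iter_rem _ _ _ ?_
    unfold pot
    simp only [List.length_cons, List.length_nil]
    rw [eTT]
    have := Nat.mul_le_mul_right (MM.eval x.length + 1) (hVn x)
    omega
  -- the run is polynomial
  have uX : ∀ (P : Polynomial ℕ), UPoly (fun x : List Bool => P.eval x.length) :=
    fun P => (UPoly.length Poly.id).eval P
  have pK : Poly (fun p : List Bool × List (List Bool) × ℕ => E p.2.1) :=
    pE.comp (Poly.fst (Poly.snd Poly.id))
  have pfin : Poly fin :=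
    poly_run (α := List Bool) (x := fun x => x)
      (M := fun x => MM.eval x.length) (T := fun x => TT.eval x.length) pf V
      (K := fun _ L _ => E L) pK Poly.id (uX MM) (uX TT) (fun z => hM1 _)
  have pacc : Poly (fun x : List Bool => (fin x).2.2.any (fun w => V.V x w)) :=
    Poly.any (l := fun x : List Bool => (fin x).2.2) (p := fun x w => V.V x w)
      (Poly.snd (Poly.snd pfin)) V.hV
  have key : ∀ x, x ∈ L ↔ (fin x).2.2.any (fun w => V.V x w) = true := by
    intro x
    constructor
    · intro hx
      have hw0 := (hV x).1 hx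
      obtain ⟨w, ⟨hw, hVw⟩, hmax⟩ : ∃ w : List Bool, (w.length = V.n x ∧ V.V x w = true) ∧
          ∀ w' : List Bool, (w'.length = V.n x ∧ V.V x w' = true) → num w' ≤ num w := by
        have hfinite : {w : List Bool | w.length = V.n x ∧ V.V x w = true}.Finite :=
          (List.finite_length_eq Bool (V.n x)).subset (fun w hw => hw.1)
        obtain ⟨w, hw, hmax⟩ := Set.exists_max_image _ num hfinite hw0
        exact ⟨w, hw, fun w' hw' => hmax w' hw'⟩
      have hmax' : ∀ w' : List Bool, w'.length = V.n x → V.V x w' = true → num w' ≤ num w :=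
        fun w' h h' => hmax w' ⟨h, h'⟩
      have hmem : Mem V x (fin x).2 := by
        rw [fin_eq]
        refine iter_mem' (hM1 _) (hf x) hw hVw hmax' _ _ _ (init_shape V x (hM1 _))
          (fun w _ _ _ => by simp) rfl ?_
        intro C t h1 h2 h3 hj
        refine hE.excl _ (nn.eval x.length) ?_ ?_ hj
        · intro y hy
          rw [qry, List.mem_map] at hy
          obtain ⟨u, hu, rfl⟩ := hy
          exact hfn x u (h1 u (List.mem_of_mem_tail hu))
        · rw [qry_length]
          have := eMM x.length
          omega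
      have h2 := hmem w hw hVw hmax'
      rw [hrem, Nat.sub_zero, ← hw, List.take_length] at h2
      rw [List.any_eq_true]
      exact ⟨w, h2, hVw⟩
    · intro hacc
      rw [List.any_eq_true] at hacc
      obtain ⟨w, hw, hVw⟩ := hacc
      refine (hV x).2 ⟨w, ?_, hVw⟩
      have := (hshape x).len w hw
      rw [hrem] at this
      omega
  have pacc' : Poly (fun x : List Bool => [(fin x).2.2.any (fun w => V.V x w)]) :=
    Poly.cons pacc (NPC.Poly.const [])
  refine ⟨_, PIso.poly_iff.1 pacc', fun x => ?_⟩
  rw [key x]
  simp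

/-- `P = NP` if and only if threshold patterns of some `NP`-hard set can be excluded in polynomial
time. -/
theorem detExcluder_iff :
    (∃ (A : Set (List Bool)) (q : Polynomial ℕ) (E : List (List Bool) → ℕ),
      NPHard A ∧ DetExcluder A q E) ↔ ∀ L : Set (List Bool), InNP L → InP L := by
  constructor
  · rintro ⟨A, q, E, hA, hE⟩
    exact p_of_excluder hA hE
  · intro h
    obtain ⟨h1, h2⟩ := Pool.Agent.NPC.H545KS.sat_complete
    obtain ⟨V, hV, hVA⟩ := h _ h1
    have pV : Poly V := PIso.poly_iff.2 hV
    set E : List (List Bool) → ℕ := fun L => L.head?.elim 0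
      (fun x => if V x = [true] then 0 else L.length) with hE
    have pE : Poly E := by
      refine Poly.optElim (o := fun L : List (List Bool) => L.head?)
        (g := fun _ => 0) (h := fun L x => if V x = [true] then 0 else L.length)
        (Poly.head? Poly.id) (NPC.Poly.const 0) ?_
      exact Poly.ite (Poly.decide_eq (pV.comp (Poly.snd Poly.id)) (NPC.Poly.const _))
        (NPC.Poly.const _) (Poly.length (Poly.fst Poly.id))
    refine ⟨_, 1, E, h2, fpoly_of_poly pE, ?_⟩
    intro L n _ hq _
    cases L with
    | nil => simp at hq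
    | cons x L =>
      have hr : E (x :: L) = if V x = [true] then 0 else (x :: L).length := rfl
      rw [hr]
      split_ifs with g
      · exact ⟨Nat.zero_le _, fun hp => hp.2.2 x (by simp) ((hVA x).2 g)⟩
      · exact ⟨le_rfl, fun hp => g ((hVA x).1 (hp.2.1 x (by simp)))⟩

end Pool.Agent.H334R5.Nd
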