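import Pool.Agent.H334R5.Nd.Defs
import Pool.Agent.H334R5.Clo.Alg
import Pool.Agent.H334R5.Clo.Main
import Pool.Agent.H334R5.Cnt.PolyPart1

/-!
# The search for a witness, with answers from outside
-/

set_option autoImplicit false

namespace Pool.Agent.H334R5.Nd

open Pool.Agent.NPC
open Pool.Agent.H251R5.PQ (Ver)
open Pool.Agent.H334R5.Clo (num ext Left)

/-- The queries. -/
def qry (f : List Bool → List Bool) (x : List Bool) (C : List (List Bool)) : List (List Bool) :=
  C.tail.map (fun u => f (bits (x, u)))

/-- One step of the search with the answer `k`. -/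
def stepK (f : List Bool → List Bool) (M : ℕ) (x : List Bool) (s : Bool × ℕ × List (List Bool))
    (k : ℕ) : Bool × ℕ × List (List Bool) :=
  if M < s.2.2.length then
    (s.1 && decide (k ≤ (qry f x s.2.2).length), s.2.1,
      s.2.2.take (min k (s.2.2.length - 1)) ++ s.2.2.drop (min k (s.2.2.length - 1) + 1))
  else if s.2.1 = 0 then s else (s.1, s.2.1 - 1, ext s.2.2)

/-- The run of the search. -/
def run (f : List Bool → List Bool) (V : Ver) (M T : ℕ) (x : List Bool)
    (K : List (List Bool) → ℕ → ℕ) : Bool × ℕ × List (List Bool) :=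
  (List.range T).foldl (fun s t => stepK f M x s (K (qry f x s.2.2) t)) (true, V.n x, [[]])

/-- The shape of the state. -/
structure Shape (V : Ver) (x : List Bool) (M : ℕ) (s : ℕ × List (List Bool)) : Prop where
  rem : s.1 ≤ V.n x
  len : ∀ u ∈ s.2, u.length = V.n x - s.1
  sorted : s.2.Pairwise (fun v w => num v < num w)
  short : s.2.length ≤ 2 * M

/-- The maximal witness is still below a node. -/
def Mem (V : Ver) (x : List Bool) (s : ℕ × List (List Bool)) : Prop :=
  ∀ w : List Bool, w.length = V.n x → V.V x w = true →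
    (∀ w' : List Bool, w'.length = V.n x → V.V x w' = true → num w' ≤ num w) →
      w.take (V.n x - s.1) ∈ s.2

/-- The potential. -/
def pot (M : ℕ) (s : ℕ × List (List Bool)) : ℕ := s.1 * (M + 1) + s.2.length

theorem length_remove {l : List (List Bool)} {k : ℕ} (hk : k < l.length) :
    (l.take k ++ l.drop (k + 1)).length + 1 = l.length := by
  rw [List.length_append, List.length_take, List.length_drop]
  omega

theorem remove_sublist (l : List (List Bool)) (k : ℕ) :
    (l.take k ++ l.drop (k + 1)).Sublist l := by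
  have h : l.take k ++ l.drop k = l := List.take_append_drop k l
  conv_rhs => rw [← h]
  refine (List.Sublist.refl _).append ?_
  rw [← List.drop_drop]
  exact List.drop_sublist _ _

theorem qry_length (f : List Bool → List Bool) (x : List Bool) (C : List (List Bool)) :
    (qry f x C).length = C.length - 1 := by
  unfold qry
  rw [List.length_map, List.length_tail]

variable {f : List Bool → List Bool} {M : ℕ} {V : Ver} {x : List Bool}

theorem stepK_shape (hM : 1 ≤ M) {s : Bool × ℕ × List (List Bool)} (hs : Shape V x M s.2) (k : ℕ) :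
    Shape V x M (stepK f M x s k).2 := by
  unfold stepK
  split_ifs with h1 h2
  · have hsub := remove_sublist s.2.2 (min k (s.2.2.length - 1))
    exact ⟨hs.rem, fun u hu => hs.len u (hsub.subset hu), hs.sorted.sublist hsub,
      hsub.length_le.trans hs.short⟩
  · exact hs
  · have hr := hs.rem
    refine ⟨by simp only; omega, fun u hu => ?_, Clo.ext_sorted hs.sorted, ?_⟩
    · obtain ⟨v, hv, c, rfl⟩ := Clo.mem_ext.1 hu
      have := hs.len v hv
      simp only [List.length_append, List.length_cons, List.length_nil]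
      omega
    · simp only
      rw [Clo.ext_length]
      omega

theorem stepK_pot {s : Bool × ℕ × List (List Bool)} (k : ℕ) :
    (stepK f M x s k = s ∧ s.2.1 = 0) ∨ pot M (stepK f M x s k).2 < pot M s.2 := by
  unfold stepK
  split_ifs with h1 h2
  · right
    have h3 := length_remove (l := s.2.2) (k := min k (s.2.2.length - 1)) (by omega)
    unfold pot
    simp only
    omega
  · exact Or.inl ⟨rfl, h2⟩
  · right
    unfold pot
    simp only
    rw [Clo.ext_length]
    have h3 : s.2.1 * (M + 1) = (s.2.1 - 1) * (M + 1) + (M + 1) := by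
      obtain ⟨j, hj⟩ := Nat.exists_eq_succ_of_ne_zero h2
      rw [hj]
      simp only [Nat.succ_eq_add_one, Nat.add_sub_cancel]
      ring
    omega

theorem stepK_ok {s : Bool × ℕ × List (List Bool)} {k : ℕ} (h : (stepK f M x s k).1 = true) :
    s.1 = true ∧ (M < s.2.2.length → k ≤ (qry f x s.2.2).length) := by
  unfold stepK at h
  split_ifs at h with h1 h2
  · simp only [Bool.and_eq_true, decide_eq_true_eq] at h
    exact ⟨h.1, fun _ => h.2⟩
  · exact ⟨h, fun h' => absurd h' h1⟩
  · exact ⟨h, fun h' => absurd h' h1⟩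

theorem stepK_true {s : Bool × ℕ × List (List Bool)} {k : ℕ} (h : s.1 = true)
    (h' : M < s.2.2.length → k ≤ (qry f x s.2.2).length) : (stepK f M x s k).1 = true := by
  unfold stepK
  split_ifs with h1 h2
  · simp only [Bool.and_eq_true, decide_eq_true_eq]
    exact ⟨h, h' h1⟩
  · exact h
  · exact h

/-- Iterated steps. -/
def iter (f : List Bool → List Bool) (M : ℕ) (x : List Bool) (K : List (List Bool) → ℕ → ℕ) :
    ℕ → Bool × ℕ × List (List Bool) → Bool × ℕ × List (List Bool)
  | 0, s => s
  | T + 1, s => iter f M x (fun L t => K L (t + 1)) T (stepK f M x s (K (qry f x s.2.2) 0))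

theorem foldl_iter : ∀ (T : ℕ) (K : List (List Bool) → ℕ → ℕ) (s : Bool × ℕ × List (List Bool)),
    (List.range T).foldl (fun s t => stepK f M x s (K (qry f x s.2.2) t)) s = iter f M x K T s
  | 0, _, _ => rfl
  | T + 1, K, s => by
    rw [List.range_succ_eq_map, List.foldl_cons, List.foldl_map]
    exact foldl_iter T (fun L t => K L (t + 1)) _

theorem iter_shape (hM : 1 ≤ M) : ∀ (T : ℕ) (K : List (List Bool) → ℕ → ℕ)
    (s : Bool × ℕ × List (List Bool)), Shape V x M s.2 → Shape V x M (iter f M x K T s).2
  | 0, _, _, hs => hs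
  | T + 1, K, s, hs => iter_shape hM T _ _ (stepK_shape hM hs _)

theorem iter_zero : ∀ (T : ℕ) (K : List (List Bool) → ℕ → ℕ)
    (s : Bool × ℕ × List (List Bool)), s.2.1 = 0 → (iter f M x K T s).2.1 = 0
  | 0, _, _, hs => hs
  | T + 1, K, s, hs => by
    refine iter_zero T _ _ ?_
    unfold stepK
    split_ifs
    · exact hs
    · exact hs

theorem iter_rem : ∀ (T : ℕ) (K : List (List Bool) → ℕ → ℕ)
    (s : Bool × ℕ × List (List Bool)), pot M s.2 < T → (iter f M x K T s).2.1 = 0
  | 0, _, _, h => absurd h (Nat.not_lt_zero _)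
  | T + 1, K, s, h => by
    rw [iter]
    rcases stepK_pot (f := f) (M := M) (x := x) (s := s) (K (qry f x s.2.2) 0) with ⟨h1, h2⟩ | h1
    · rw [h1]
      exact iter_zero _ _ _ h2
    · exact iter_rem T _ _ (by omega)

theorem iter_ok : ∀ (T : ℕ) (K : List (List Bool) → ℕ → ℕ) (s : Bool × ℕ × List (List Bool)),
    (iter f M x K T s).1 = true → s.1 = true
  | 0, _, _, h => h
  | T + 1, K, s, h => (stepK_ok (iter_ok T _ _ h)).1

variable {A : Set (List Bool)}

theorem pattern_idx (hf : ∀ u, (f (bits (x, u)) ∈ A ↔ Left V (x, u)))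
    {s : ℕ × List (List Bool)} (hs : Shape V x M s) {w : List Bool} (hw : w.length = V.n x)
    (hV : V.V x w = true)
    (hmax : ∀ w' : List Bool, w'.length = V.n x → V.V x w' = true → num w' ≤ num w)
    {k : ℕ} (hk : k < s.2.length) (hkw : s.2[k] = w.take (V.n x - s.1)) :
    Pattern A (qry f x s.2) k := by
  set i := V.n x - s.1 with hi
  set L := qry f x s.2 with hL
  have hLlen : L.length = s.2.length - 1 := qry_length f x s.2
  have hleft : ∀ u : List Bool, u.length = i →
      (Left V (x, u) ↔ num u ≤ num (w.take i)) := by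
    intro u hu
    constructor
    · rintro ⟨w', hw', hV', h1⟩
      simp only at hw' hV' h1
      rw [hu] at h1
      exact h1.trans (Clo.num_take_mono (by rw [hw, hw']) (hmax w' hw' hV') i)
    · intro h1
      exact ⟨w, hw, hV, by rw [hu]; exact h1⟩
  have hsorted : ∀ (j j' : ℕ) (hj : j < s.2.length) (hj' : j' < s.2.length), j < j' →
      num s.2[j] < num s.2[j'] := fun j j' hj hj' h =>
    List.pairwise_iff_getElem.1 hs.sorted j j' hj hj' h
  have hLget : ∀ (j : ℕ) (hj : j < L.length), L[j] = f (bits (x, s.2[j + 1]'(by omega))) := by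
    intro j hj
    simp only [hL, qry, List.getElem_map, List.getElem_tail]
  refine ⟨by omega, fun y hy => ?_, fun y hy => ?_⟩
  · obtain ⟨j, hj, rfl⟩ := List.getElem_of_mem hy
    rw [List.length_take] at hj
    rw [List.getElem_take, hLget j (by omega), hf,
      hleft _ (hs.len _ (List.getElem_mem _)), ← hkw]
    rcases Nat.lt_or_ge (j + 1) k with h2 | h2
    · exact (hsorted _ _ _ hk h2).le
    · have h3 : j + 1 = k := by omega
      simp only [h3, le_refl]
  · obtain ⟨j, hj, rfl⟩ := List.getElem_of_mem hy
    rw [List.length_drop] at hj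
    rw [List.getElem_drop, hLget (k + j) (by omega), hf,
      hleft _ (hs.len _ (List.getElem_mem _)), ← hkw, not_le]
    exact hsorted _ _ hk _ (by omega)

theorem stepK_mem (hf : ∀ u, (f (bits (x, u)) ∈ A ↔ Left V (x, u)))
    {s : Bool × ℕ × List (List Bool)} (hs : Shape V x M s.2) (hm : Mem V x s.2) {k : ℕ}
    (hk : M < s.2.2.length → ¬ Pattern A (qry f x s.2.2) k)
    (hok : (stepK f M x s k).1 = true) : Mem V x (stepK f M x s k).2 := by
  have hok' := (stepK_ok hok).2
  intro w hw hV hmax
  have hmem := hm w hw hV hmax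
  unfold stepK
  split_ifs with h1 h2
  · obtain ⟨k0, hk0, hk0w⟩ := List.getElem_of_mem hmem
    have hpat := pattern_idx hf hs hw hV hmax hk0 hk0w
    have hne : k0 ≠ k := by
      rintro rfl
      exact hk h1 hpat
    have hkl := hok' h1
    rw [qry_length] at hkl
    have hmin : min k (s.2.2.length - 1) = k := by omega
    simp only [hmin]
    rw [← hk0w, List.mem_append]
    rcases Nat.lt_or_ge k0 k with h3 | h3
    · left
      rw [List.mem_take_iff_getElem]
      exact ⟨k0, by omega, rfl⟩
    · right
      rw [List.mem_drop_iff_getElem]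
      exact ⟨k0 - (k + 1), by omega, by congr 1; omega⟩
  · exact hmem
  · have hr := hs.rem
    simp only
    rw [Clo.mem_ext]
    refine ⟨_, hmem, w[V.n x - s.2.1]'(by omega), ?_⟩
    rw [List.take_append_getElem]
    congr 1
    omega

theorem iter_mem (hM : 1 ≤ M) (hf : ∀ u, (f (bits (x, u)) ∈ A ↔ Left V (x, u))) :
    ∀ (T : ℕ) (K : List (List Bool) → ℕ → ℕ) (s : Bool × ℕ × List (List Bool)),
      Shape V x M s.2 → Mem V x s.2 →
      (∀ (C : List (List Bool)) (t : ℕ), (∀ u ∈ C, u.length ≤ V.n x) → M < C.length →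
        C.length ≤ 2 * M → t < T → ¬ Pattern A (qry f x C) (K (qry f x C) t)) →
      (iter f M x K T s).1 = true → Mem V x (iter f M x K T s).2
  | 0, _, _, _, hm, _, _ => hm
  | T + 1, K, s, hs, hm, hK, hok => by
    rw [iter] at hok ⊢
    refine iter_mem hM hf T _ _ (stepK_shape hM hs _) ?_ ?_ hok
    · refine stepK_mem hf hs hm (fun h1 => ?_) (iter_ok T _ _ hok)
      exact hK s.2.2 0 (fun u hu => by rw [hs.len u hu]; omega) h1 hs.short (by omega)
    · intro C t h1 h2 h3 h4
      exact hK C (t + 1) h1 h2 h3 (by omega)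

/-- There is no witness: all queries are outside `A`. -/
theorem qry_not_mem (hf : ∀ u, (f (bits (x, u)) ∈ A ↔ Left V (x, u)))
    (hx : ¬ ∃ w : List Bool, w.length = V.n x ∧ V.V x w = true) (C : List (List Bool)) :
    ∀ y ∈ qry f x C, y ∉ A := by
  intro y hy
  rw [qry, List.mem_map] at hy
  obtain ⟨u, -, rfl⟩ := hy
  rw [hf]
  rintro ⟨w, h1, h2, -⟩
  exact hx ⟨w, h1, h2⟩

section PolyPart

variable {α : Type} [TEnc α]

theorem poly_qry {f : List Bool → List Bool}
    (hf : Poly (fun z : List Bool × List Bool => f (bits z))) {x : α → List Bool}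
    {C : α → List (List Bool)} (hx : Poly x) (hC : Poly C) :
    Poly (fun a => qry f (x a) (C a)) := by
  unfold qry
  refine NPC.Poly.map (l := fun a => (C a).tail) (F := fun a u => f (bits (x a, u)))
    (Poly.tail hC) ?_
  exact Poly.comp (g := fun z : List Bool × List Bool => f (bits z))
    (f := fun p : α × List Bool => (x p.1, p.2)) hf
    (Poly.pair (hx.comp (Poly.fst Poly.id)) (Poly.snd Poly.id))

theorem poly_stepK {f : List Bool → List Bool}
    (hf : Poly (fun z : List Bool × List Bool => f (bits z)))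
    {M k : α → ℕ} {x : α → List Bool} {s : α → Bool × ℕ × List (List Bool)}
    (hM : Poly M) (hx : Poly x) (hs : Poly s) (hk : Poly k) :
    Poly (fun a => stepK f (M a) (x a) (s a) (k a)) := by
  have hC : Poly (fun a => (s a).2.2) := Poly.snd (Poly.snd hs)
  have h1 : Poly (fun a => (s a).2.1) := Poly.fst (Poly.snd hs)
  have h0 : Poly (fun a => (s a).1) := Poly.fst hs
  have hQ : Poly (fun a => (qry f (x a) (s a).2.2).length) := Poly.length (poly_qry hf hx hC)
  have hm : Poly (fun a => min (k a) ((s a).2.2.length - 1)) :=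
    Poly.min hk (Poly.sub (Poly.length hC) (NPC.Poly.const 1))
  unfold stepK
  refine Poly.ite (Poly.decide_lt hM (Poly.length hC)) ?_ (Poly.ite
    (Poly.decide_eq h1 (NPC.Poly.const 0)) hs ?_)
  · exact Poly.pair (Poly.and h0 (Poly.decide_le hk hQ)) (Poly.pair h1 (Poly.append
      (Clo.poly_take hC hm) (Clo.poly_drop hC (Poly.add hm (NPC.Poly.const 1)))))
  · exact Poly.pair h0 (Poly.pair (Poly.sub h1 (NPC.Poly.const 1)) (Clo.poly_ext hC))

theorem init_shape (V : Ver) (x : List Bool) {M : ℕ} (hM : 1 ≤ M) :
    Shape V x M (V.n x, [[]]) := by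
  refine ⟨le_rfl, ?_, by simp, by simp; omega⟩
  intro u hu
  simp only [List.mem_singleton] at hu
  subst hu
  simp

theorem poly_run {f : List Bool → List Bool}
    (hf : Poly (fun z : List Bool × List Bool => f (bits z))) (V : Ver)
    {K : α → List (List Bool) → ℕ → ℕ}
    (hK : Poly (fun p : α × List (List Bool) × ℕ => K p.1 p.2.1 p.2.2))
    {x : α → List Bool} (hx : Poly x) {M T : α → ℕ} (hM : UPoly M) (hT : UPoly T)
    (hM1 : ∀ a, 1 ≤ M a) : Poly (fun a => run f V (M a) (T a) (x a) (K a)) := by
  obtain ⟨qv, hqv⟩ := (V.hn.comp hx).sz_le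
  obtain ⟨qm, hqm⟩ := hM.sz_le
  unfold run
  refine Poly.foldl (l := fun a => List.range (T a))
    (s := fun a => ((true, V.n (x a), [[]]) : Bool × ℕ × List (List Bool)))
    (F := fun a s t => stepK f (M a) (x a) s (K a (qry f (x a) s.2.2) t)) hT.range
    (Poly.pair (NPC.Poly.const true) (Poly.pair (V.hn.toPoly.comp hx) (NPC.Poly.const _))) ?_
    ((Polynomial.C 4 * qv + Polynomial.C 1) + (Polynomial.C 2 * qm *
      (Polynomial.C 4 * qv + Polynomial.C 2) + Polynomial.C 1) + Polynomial.C 10) ?_
  · have ha : Poly (fun p : α × (Bool × ℕ × List (List Bool)) × ℕ => p.1) := Poly.fst Poly.id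
    have hs : Poly (fun p : α × (Bool × ℕ × List (List Bool)) × ℕ => p.2.1) :=
      Poly.fst (Poly.snd Poly.id)
    refine poly_stepK hf (hM.toPoly.comp ha) (hx.comp ha) hs ?_
    exact Poly.comp (g := fun p : α × List (List Bool) × ℕ => K p.1 p.2.1 p.2.2)
      (f := fun p : α × (Bool × ℕ × List (List Bool)) × ℕ => (p.1, qry f (x p.1) p.2.1.2.2, p.2.2))
      hK (Poly.pair ha (Poly.pair (poly_qry hf (hx.comp ha) (Poly.snd (Poly.snd hs)))
        (Poly.snd (Poly.snd Poly.id))))
  · intro a k hk
    have hsh : Shape V (x a) (M a) (((List.range (T a)).take k).foldl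
        (fun s t => stepK f (M a) (x a) s (K a (qry f (x a) s.2.2) t))
        (true, V.n (x a), [[]])).2 := by
      generalize (List.range (T a)).take k = l
      have : ∀ (l : List ℕ) (s : Bool × ℕ × List (List Bool)), Shape V (x a) (M a) s.2 →
          Shape V (x a) (M a) (l.foldl (fun s t => stepK f (M a) (x a) s
            (K a (qry f (x a) s.2.2) t)) s).2 := by
        intro l
        induction l with
        | nil => intro s hs; exact hs
        | cons t l ih =>
          intro s hs
          rw [List.foldl_cons]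
          exact ih _ (stepK_shape (hM1 _) hs _)
      exact this l _ (init_shape V (x a) (hM1 a))
    generalize ((List.range (T a)).take k).foldl
        (fun s t => stepK f (M a) (x a) s (K a (qry f (x a) s.2.2) t))
        (true, V.n (x a), [[]]) = st at hsh ⊢
    obtain ⟨o, b, C⟩ := st
    have e1 : sz (List.replicate (V.n (x a)) ()) ≤ qv.eval (sz a) := hqv a
    have e2 : sz (List.replicate (M a) ()) ≤ qm.eval (sz a) := hqm a
    have e3 := length_lt_sz (List.replicate (V.n (x a)) ())
    have e4 := length_lt_sz (List.replicate (M a) ())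
    rw [List.length_replicate] at e3 e4
    have e5 : V.n (x a) ≤ qv.eval (sz a) := by omega
    have e6 : M a ≤ qm.eval (sz a) := by omega
    have h1 : b ≤ V.n (x a) := hsh.rem
    have h2 : C.length ≤ 2 * M a := hsh.short
    have h3 : sz b ≤ 4 * b + 1 := by
      have e7 := sz_nat_le b
      have e8 := Poly.size_le_self b
      omega
    have h4 := sz_le_length_mul C (4 * V.n (x a) + 1) (by
      intro u hu
      have e7 := hsh.len u hu
      have e8 := sz_listBool_le u
      omega)
    have h5 : C.length * (4 * V.n (x a) + 1 + 1) ≤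
        2 * qm.eval (sz a) * (4 * qv.eval (sz a) + 2) := Nat.mul_le_mul (by omega) (by omega)
    have h6 : sz o ≤ 5 := by cases o <;> decide
    simp only [Polynomial.eval_add, Polynomial.eval_mul, Polynomial.eval_C]
    rw [sz_pair, sz_pair]
    omega

end PolyPart

end Pool.Agent.H334R5.Nd
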