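import Pool.Agent.H334R5.Nd.AdvDefs
import Pool.Agent.H334R5.Nd.Search
import Pool.Agent.H545R2.KS.Sat

/-!
# Excluding one threshold pattern with advice, and `NP ⊆ P/poly`
-/

set_option autoImplicit false

namespace Pool.Agent.H334R5.Nd

open Pool.Agent.NPC
open Pool.Agent.H251R5.PQ (Ver t_PAD)
open Pool.Agent.H334R5.Clo (num ext Left)
open Pool.Agent.H334R5.Cnt (usz bits_poly fpoly_of_poly)

/-- Valid answers keep the maximal witness. -/
theorem iter_mem' {f : List Bool → List Bool} {M : ℕ} {V : Ver} {x : List Bool}
    {A : Set (List Bool)} (hM : 1 ≤ M) (hf : ∀ u, (f (bits (x, u)) ∈ A ↔ Left V (x, u)))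
    {w : List Bool} (hw : w.length = V.n x) (hV : V.V x w = true)
    (hmax : ∀ w' : List Bool, w'.length = V.n x → V.V x w' = true → num w' ≤ num w) :
    ∀ (T : ℕ) (K : List (List Bool) → ℕ → ℕ) (s : Bool × ℕ × List (List Bool)),
      Shape V x M s.2 → Mem V x s.2 → s.1 = true →
      (∀ (C : List (List Bool)) (t : ℕ), (∀ u ∈ C, u.length ≤ V.n x) → M < C.length →
        C.length ≤ 2 * M → (∃ j, Pattern A (qry f x C) j) →
          K (qry f x C) t ≤ (qry f x C).length ∧ ¬ Pattern A (qry f x C) (K (qry f x C) t)) →
      Mem V x (iter f M x K T s).2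
  | 0, _, _, _, hm, _, _ => hm
  | T + 1, K, s, hs, hm, hok, hK => by
    rw [iter]
    have hkey : M < s.2.2.length → K (qry f x s.2.2) 0 ≤ (qry f x s.2.2).length ∧
        ¬ Pattern A (qry f x s.2.2) (K (qry f x s.2.2) 0) := by
      intro h1
      refine hK s.2.2 0 (fun u hu => by rw [hs.len u hu]; omega) h1 hs.short ?_
      obtain ⟨k, hk, hkw⟩ := List.getElem_of_mem (hm w hw hV hmax)
      exact ⟨k, pattern_idx hf hs hw hV hmax hk hkw⟩
    have hok' := stepK_true (f := f) (M := M) (x := x) (s := s) (k := K (qry f x s.2.2) 0) hok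
      (fun h1 => (hkey h1).1)
    exact iter_mem' hM hf hw hV hmax T _ _ (stepK_shape hM hs _)
      (stepK_mem hf hs hm (fun h1 => (hkey h1).2) hok') hok'
      (fun C t h1 h2 h3 => hK C (t + 1) h1 h2 h3)

/-- The answers with advice. -/
def ansA (E : List (List Bool) → List Bool → ℕ) (a : List Bool) (L : List (List Bool)) (_ : ℕ) : ℕ :=
  E L (((unbits (List (List Bool)) a).getD []).getD (bits L).length [])

/-- The advice strings for all lengths up to `N`. -/
def allAdv (adv : ℕ → List Bool) (N : ℕ) : List Bool := bits ((List.range (N + 1)).map adv)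

theorem allAdv_getD (adv : ℕ → List Bool) {N j : ℕ} (h : j ≤ N) :
    ((unbits (List (List Bool)) (allAdv adv N)).getD []).getD j [] = adv j := by
  unfold allAdv
  rw [unbits_bits, Option.getD_some, List.getD_eq_getElem?_getD, List.getElem?_map,
    List.getElem?_range (by omega)]
  rfl

theorem allAdv_length (adv : ℕ → List Bool) {p : Polynomial ℕ}
    (h : ∀ n, (adv n).length ≤ p.eval n) (N : ℕ) :
    (allAdv adv N).length ≤ (N + 1) * (4 * p.eval N + 2) + 1 := by
  unfold allAdv
  rw [bits_length]
  have h1 := sz_le_length_mul ((List.range (N + 1)).map adv) (4 * p.eval N + 1) (by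
    intro y hy
    rw [List.mem_map] at hy
    obtain ⟨j, hj, rfl⟩ := hy
    rw [List.mem_range] at hj
    have e1 := h j
    have e2 := eval_mono p (show j ≤ N by omega)
    have e3 := sz_listBool_le (adv j)
    omega)
  rw [List.length_map, List.length_range] at h1
  have h4 : 4 * p.eval N + 1 + 1 = 4 * p.eval N + 2 := by ring
  rw [h4] at h1
  omega

theorem ppoly_of_excluder {A : Set (List Bool)} {q p : Polynomial ℕ} {adv : ℕ → List Bool}
    {E : List (List Bool) → List Bool → ℕ} (hA : NPHard A) (hE : AdvExcluder A q p adv E) :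
    ∀ L : Set (List Bool), InNP L → InPpoly L := by
  intro L hL
  obtain ⟨V, hV⟩ := t_PAD L hL
  obtain ⟨f, hf0, hfA⟩ := hA _ (Clo.left_inNPP V)
  have pf : Poly (fun z : List Bool × List Bool => f (bits z)) :=
    (PIso.poly_iff.2 hf0).comp bits_poly
  have hf : ∀ x u : List Bool, (f (bits (x, u)) ∈ A ↔ Left V (x, u)) := fun x u => by
    rw [← hfA, bits_mem_lang]
  have pE : Poly (fun p : List (List Bool) × List Bool => E p.1 p.2) := by
    obtain ⟨F, hF, hFR⟩ := hE.poly
    exact Cnt.FPoly.poly ⟨F, hF, fun p => hFR p.1 p.2⟩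
  -- the polynomials
  obtain ⟨qn, hqn⟩ := V.hn.sz_le
  obtain ⟨qf, hqf⟩ := pf.sz_le
  set pV : Polynomial ℕ := qn.comp (Polynomial.C 4 * Polynomial.X + Polynomial.C 1) with hpV
  set nn : Polynomial ℕ := qf.comp (Polynomial.C 4 * Polynomial.X + Polynomial.C 4 * pV +
    Polynomial.C 3) with hnn
  set MM : Polynomial ℕ := q.comp nn + Polynomial.C 1 with hMM
  set BB : Polynomial ℕ := Polynomial.C 2 * MM * (Polynomial.C 4 * nn + Polynomial.C 2) +
    Polynomial.C 1 with hBB
  set TT : Polynomial ℕ := pV * (MM + Polynomial.C 1) + Polynomial.C 2 with hTT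
  have eMM : ∀ k, MM.eval k = q.eval (nn.eval k) + 1 := fun k => by
    rw [hMM]; simp only [Polynomial.eval_add, Polynomial.eval_comp, Polynomial.eval_C]
  have eBB : ∀ k, BB.eval k = 2 * MM.eval k * (4 * nn.eval k + 2) + 1 := fun k => by
    rw [hBB]; simp only [Polynomial.eval_add, Polynomial.eval_mul, Polynomial.eval_C]
  have eTT : ∀ k, TT.eval k = pV.eval k * (MM.eval k + 1) + 2 := fun k => by
    rw [hTT]; simp only [Polynomial.eval_add, Polynomial.eval_mul, Polynomial.eval_C]
  have hVn : ∀ x : List Bool, V.n x ≤ pV.eval x.length := by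
    intro x
    have h1 := hqn x
    have h2 := length_lt_sz (List.replicate (V.n x) ())
    rw [List.length_replicate] at h2
    have h3 : sz x ≤ 4 * x.length + 1 := sz_listBool_le x
    have h4 := eval_mono qn h3
    rw [hpV, Polynomial.eval_comp]
    simp only [Polynomial.eval_add, Polynomial.eval_mul, Polynomial.eval_C, Polynomial.eval_X]
    omega
  have hfn : ∀ x u : List Bool, u.length ≤ V.n x →
      (f (bits (x, u))).length ≤ nn.eval x.length := by
    intro x u hu
    have h1 := hqf (x, u)
    have h2 := length_lt_sz (f (bits (x, u)))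
    have h3 : sz ((x, u) : List Bool × List Bool) ≤ 4 * x.length + 4 * pV.eval x.length + 3 := by
      have e1 := sz_listBool_le x
      have e2 := sz_listBool_le u
      have e3 := hVn x
      rw [sz_pair]
      omega
    have h4 := eval_mono qf h3
    rw [hnn, Polynomial.eval_comp]
    simp only [Polynomial.eval_add, Polynomial.eval_mul, Polynomial.eval_C, Polynomial.eval_X]
    omega
  have hBn : ∀ x : List Bool, ∀ C : List (List Bool), (∀ u ∈ C, u.length ≤ V.n x) →
      C.length ≤ 2 * MM.eval x.length → (bits (qry f x C)).length ≤ BB.eval x.length := by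
    intro x C hC hCl
    rw [bits_length, eBB]
    have h1 := sz_le_length_mul (qry f x C) (4 * nn.eval x.length + 1) (by
      intro y hy
      rw [qry, List.mem_map] at hy
      obtain ⟨u, hu, rfl⟩ := hy
      have e1 := hfn x u (hC u (List.mem_of_mem_tail hu))
      have e2 := sz_listBool_le (f (bits (x, u)))
      omega)
    have h2 : (qry f x C).length ≤ 2 * MM.eval x.length := by
      rw [qry_length]; omega
    have h3 := Nat.mul_le_mul_right (4 * nn.eval x.length + 2) h2
    have h4 : 4 * nn.eval x.length + 1 + 1 = 4 * nn.eval x.length + 2 := by ring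
    rw [h4] at h1
    omega
  have hM1 : ∀ k, 1 ≤ MM.eval k := fun k => by rw [eMM]; omega
  -- the run
  set fin : List Bool → List Bool → Bool × ℕ × List (List Bool) := fun x a =>
    run f V (MM.eval x.length) (TT.eval x.length) x (ansA E a) with hfin
  have fin_eq : ∀ x a, fin x a = iter f (MM.eval x.length) x (ansA E a)
      (TT.eval x.length) (true, V.n x, [[]]) := fun x a => foldl_iter _ _ _
  have hshape : ∀ x a, Shape V x (MM.eval x.length) (fin x a).2 := by
    intro x a
    rw [fin_eq]
    exact iter_shape (hM1 _) _ _ _ (init_shape V x (hM1 _))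
  have hrem : ∀ x a, (fin x a).2.1 = 0 := by
    intro x a
    rw [fin_eq]
    refine iter_rem _ _ _ ?_
    unfold pot
    simp only [List.length_cons, List.length_nil]
    rw [eTT]
    have := Nat.mul_le_mul_right (MM.eval x.length + 1) (hVn x)
    omega
  -- the run is polynomial
  have uX : ∀ (P : Polynomial ℕ), UPoly (fun z : List Bool × List Bool => P.eval z.1.length) :=
    fun P => (UPoly.length (Poly.fst Poly.id)).eval P
  have pK : Poly (fun p : (List Bool × List Bool) × List (List Bool) × ℕ =>
      ansA E p.1.2 p.2.1 p.2.2) := by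
    unfold ansA
    have hL : Poly (fun p : (List Bool × List Bool) × List (List Bool) × ℕ => p.2.1) :=
      Poly.fst (Poly.snd Poly.id)
    have hu : Poly (fun p : (List Bool × List Bool) × List (List Bool) × ℕ =>
        (unbits (List (List Bool)) p.1.2).getD []) :=
      Poly.optGetD (poly_unbits.comp (Poly.snd (Poly.fst Poly.id))) (NPC.Poly.const [])
    have hl : Poly (fun p : (List Bool × List Bool) × List (List Bool) × ℕ =>
        (bits p.2.1).length) := (UPoly.length (bits_poly.comp hL)).toPoly
    have hg : Poly (fun p : (List Bool × List Bool) × List (List Bool) × ℕ =>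
        ((unbits (List (List Bool)) p.1.2).getD []).getD (bits p.2.1).length []) :=
      Poly.getD hu hl (NPC.Poly.const [])
    exact Poly.comp (g := fun p : List (List Bool) × List Bool => E p.1 p.2)
      (f := fun p : (List Bool × List Bool) × List (List Bool) × ℕ => (p.2.1,
        ((unbits (List (List Bool)) p.1.2).getD []).getD (bits p.2.1).length []))
      pE (Poly.pair hL hg)
  have pfin : Poly (fun z : List Bool × List Bool => fin z.1 z.2) :=
    poly_run (α := List Bool × List Bool) (x := fun z => z.1)
      (M := fun z => MM.eval z.1.length) (T := fun z => TT.eval z.1.length) pf V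
      (K := fun z => ansA E z.2) pK (Poly.fst Poly.id) (uX MM) (uX TT) (fun z => hM1 _)
  have pacc : Poly (fun y : List Bool => [(fin (unpair y).1 (unpair y).2).2.2.any
      (fun w => V.V (unpair y).1 w)]) := by
    have h0 : Poly (fun y : List Bool => fin (unpair y).1 (unpair y).2) :=
      Poly.comp (g := fun z : List Bool × List Bool => fin z.1 z.2) pfin poly_unpair
    refine Poly.cons (Poly.any (l := fun y : List Bool =>
        (fin (unpair y).1 (unpair y).2).2.2) (p := fun y w => V.V (unpair y).1 w)
        (Poly.snd (Poly.snd h0)) ?_) (NPC.Poly.const [])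
    exact Poly.comp (g := fun t : List Bool × List Bool => V.V t.1 t.2)
      (f := fun p : List Bool × List Bool => ((unpair p.1).1, p.2)) V.hV
      (Poly.pair (Poly.fst (poly_unpair.comp (Poly.fst Poly.id))) (Poly.snd Poly.id))
  refine ⟨_, fun n => allAdv adv (BB.eval n),
    (BB + Polynomial.C 1) * (Polynomial.C 4 * p.comp BB + Polynomial.C 2) + Polynomial.C 1,
    PIso.poly_iff.1 pacc, fun n => ?_, fun x => ?_⟩
  · simp only [Polynomial.eval_add, Polynomial.eval_mul, Polynomial.eval_C, Polynomial.eval_comp]
    exact allAdv_length adv hE.short _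
  simp only [unpair_pairBits]
  set a := allAdv adv (BB.eval x.length) with ha
  constructor
  · intro hx
    have hw0 := (hV x).1 hx
    obtain ⟨w, ⟨hw, hVw⟩, hmax⟩ : ∃ w : List Bool, (w.length = V.n x ∧ V.V x w = true) ∧
        ∀ w' : List Bool, (w'.length = V.n x ∧ V.V x w' = true) → num w' ≤ num w := by
      have hfinite : {w : List Bool | w.length = V.n x ∧ V.V x w = true}.Finite :=
        (List.finite_length_eq Bool (V.n x)).subset (fun w hw => hw.1)
      obtain ⟨w, hw, hmax⟩ := Set.exists_max_image _ num hfinite hw0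
      exact ⟨w, hw, fun w' hw' => hmax w' hw'⟩
    have hmax' : ∀ w' : List Bool, w'.length = V.n x → V.V x w' = true → num w' ≤ num w :=
      fun w' h h' => hmax w' ⟨h, h'⟩
    have hmem : Mem V x (fin x a).2 := by
      rw [fin_eq]
      refine iter_mem' (hM1 _) (hf x) hw hVw hmax' _ _ _ (init_shape V x (hM1 _))
        (fun w _ _ _ => by simp) rfl ?_
      intro C t h1 h2 h3 hj
      have e1 : ansA E a (qry f x C) t = E (qry f x C) (adv (bits (qry f x C)).length) := by
        unfold ansA
        rw [ha, allAdv_getD adv (hBn x C h1 h3)]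
      rw [e1]
      refine hE.excl _ (nn.eval x.length) ?_ ?_ hj
      · intro y hy
        rw [qry, List.mem_map] at hy
        obtain ⟨u, hu, rfl⟩ := hy
        exact hfn x u (h1 u (List.mem_of_mem_tail hu))
      · rw [qry_length]
        have := eMM x.length
        omega
    have h2 := hmem w hw hVw hmax'
    rw [hrem, Nat.sub_zero, ← hw, List.take_length] at h2
    simp only [List.cons.injEq, and_true, List.any_eq_true]
    exact ⟨w, h2, hVw⟩
  · intro hacc
    simp only [List.cons.injEq, and_true, List.any_eq_true] at hacc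
    obtain ⟨w, hw, hVw⟩ := hacc
    refine (hV x).2 ⟨w, ?_, hVw⟩
    have := (hshape x a).len w hw
    rw [hrem] at this
    omega

/-- The excluder obtained from an algorithm with advice for `A`. -/
def exA (V : List Bool → List Bool) (L : List (List Bool)) (a : List Bool) : ℕ :=
  L.head?.elim 0 (fun x =>
    if V (pairBits x (((unbits (List (List Bool)) a).getD []).getD x.length [])) = [true] then 0
    else L.length)

theorem exA_poly {V : List Bool → List Bool} (hV : PolyTime V) :
    Poly (fun p : List (List Bool) × List Bool => exA V p.1 p.2) := by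
  have pV : Poly V := PIso.poly_iff.2 hV
  have hpb : Poly (fun q : List Bool × List Bool => pairBits q.1 q.2) := by
    unfold pairBits
    fun_prop
  unfold exA
  refine Poly.optElim (o := fun p : List (List Bool) × List Bool => p.1.head?)
    (g := fun _ => 0) (h := fun p x => if V (pairBits x
      (((unbits (List (List Bool)) p.2).getD []).getD x.length [])) = [true] then 0
      else p.1.length) (Poly.head? (Poly.fst Poly.id)) (NPC.Poly.const 0) ?_
  refine Poly.ite (Poly.decide_eq (pV.comp ?_) (NPC.Poly.const _)) (NPC.Poly.const _)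
    (Poly.length (Poly.fst (Poly.fst Poly.id)))
  refine Poly.comp (g := fun q : List Bool × List Bool => pairBits q.1 q.2)
    (f := fun q : (List (List Bool) × List Bool) × List Bool => (q.2,
      ((unbits (List (List Bool)) q.1.2).getD []).getD q.2.length [])) hpb
    (Poly.pair (Poly.snd Poly.id) ?_)
  exact Poly.getD (Poly.optGetD (poly_unbits.comp (Poly.snd (Poly.fst Poly.id)))
    (NPC.Poly.const [])) (Poly.length (Poly.snd Poly.id)) (NPC.Poly.const [])

theorem excluder_of_ppoly {A : Set (List Bool)} (hA : InPpoly A) :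
    ∃ (q p : Polynomial ℕ) (adv : ℕ → List Bool) (E : List (List Bool) → List Bool → ℕ),
      AdvExcluder A q p adv E := by
  obtain ⟨V, adv, p, hV, hp, hVA⟩ := hA
  refine ⟨1, (Polynomial.X + Polynomial.C 1) * (Polynomial.C 4 * p + Polynomial.C 2) +
    Polynomial.C 1, allAdv adv, exA V, ?_, ?_, ?_⟩
  · obtain ⟨F, hF, h⟩ := fpoly_of_poly (exA_poly hV)
    exact ⟨F, hF, fun L r => h (L, r)⟩
  · intro n
    simp only [Polynomial.eval_add, Polynomial.eval_mul, Polynomial.eval_C, Polynomial.eval_X]
    exact allAdv_length adv hp n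
  · intro L n _ hq _
    cases L with
    | nil => simp at hq
    | cons x L =>
      have e1 : x.length ≤ (bits (x :: L)).length := by
        rw [bits_length, sz_list_cons]
        have := length_lt_sz x
        omega
      have hr : exA V (x :: L) (allAdv adv (bits (x :: L)).length) =
          if V (pairBits x (adv x.length)) = [true] then 0 else (x :: L).length := by
        have e2 : exA V (x :: L) (allAdv adv (bits (x :: L)).length) =
          if V (pairBits x (((unbits (List (List Bool))
            (allAdv adv (bits (x :: L)).length)).getD []).getD x.length [])) = [true] then 0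
          else (x :: L).length := rfl
        rw [e2, allAdv_getD adv e1]
      rw [hr]
      split_ifs with h
      · exact ⟨Nat.zero_le _, fun hp => hp.2.2 x (by simp) ((hVA x).2 h)⟩
      · exact ⟨le_rfl, fun hp => h ((hVA x).1 (hp.2.1 x (by simp)))⟩

/-- `NP ⊆ P/poly` if and only if threshold patterns of some `NP`-hard set can be excluded by
nonuniform algorithms. -/
theorem advExcluder_iff :
    (∃ (A : Set (List Bool)) (q p : Polynomial ℕ) (adv : ℕ → List Bool)
      (E : List (List Bool) → List Bool → ℕ), NPHard A ∧ AdvExcluder A q p adv E) ↔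
      ∀ L : Set (List Bool), InNP L → InPpoly L := by
  constructor
  · rintro ⟨A, q, p, adv, E, hA, hE⟩
    exact ppoly_of_excluder hA hE
  · intro h
    obtain ⟨h1, h2⟩ := Pool.Agent.NPC.H545KS.sat_complete
    obtain ⟨q, p, adv, E, hE⟩ := excluder_of_ppoly (h _ h1)
    exact ⟨_, q, p, adv, E, h2, hE⟩

end Pool.Agent.H334R5.Nd
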