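import Pool.Agent.H334R5.Nd.Defs

/-!
# Exclusion of a threshold pattern with advice
-/

set_option autoImplicit false

namespace Pool.Agent.H334R5.Nd

open Pool.Agent.NPC

/-- The class `P/poly`, by polynomial-time algorithms with advice strings of polynomial length. -/
def InPpoly (L : Set (List Bool)) : Prop :=
  ∃ (V : List Bool → List Bool) (adv : ℕ → List Bool) (p : Polynomial ℕ), PolyTime V ∧
    (∀ n, (adv n).length ≤ p.eval n) ∧ ∀ x, x ∈ L ↔ V (pairBits x (adv x.length)) = [true]

/-- A nonuniform polynomial-time algorithm which excludes one threshold pattern of `A`: it gets a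
list `L` of `m ≥ q(n)` strings of length at most `n` and the advice string for the length of the
code of `L`. If the list has a threshold pattern then the output is a number `k ≤ m` such that the
list does not have the threshold pattern `k`. -/
structure AdvExcluder (A : Set (List Bool)) (q p : Polynomial ℕ) (adv : ℕ → List Bool)
    (E : List (List Bool) → List Bool → ℕ) : Prop where
  poly : ∃ F : List Bool → List Bool, PolyTime F ∧
    ∀ (L : List (List Bool)) (a : List Bool), F (bits (L, a)) = bits (E L a)
  short : ∀ n, (adv n).length ≤ p.eval n
  excl : ∀ (L : List (List Bool)) (n : ℕ), (∀ x ∈ L, x.length ≤ n) → q.eval n ≤ L.length →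
    (∃ j, Pattern A L j) → E L (adv (bits L).length) ≤ L.length ∧
      ¬ Pattern A L (E L (adv (bits L).length))

end Pool.Agent.H334R5.Nd
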