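import Pool.Agent.NPC.Dec

/-!
# Nondeterministic refutation of threshold patterns
-/

set_option autoImplicit false

namespace Pool.Agent.H334R5.Nd

open Pool.Agent.NPC

/-- The list `L = x₁, …, xₘ` has the threshold pattern `k` for the set `A`: the strings
`x₁, …, xₖ` are in `A`, and the strings `xₖ₊₁, …, xₘ` are not in `A`. -/
def Pattern (A : Set (List Bool)) (L : List (List Bool)) (k : ℕ) : Prop :=
  k ≤ L.length ∧ (∀ x ∈ L.take k, x ∈ A) ∧ ∀ x ∈ L.drop k, x ∉ A

/-- A nondeterministic polynomial-time algorithm `E` for the refutation of threshold patterns. It
gets a list `L` of strings and a guessed string `w` of length `ℓ(|L|)`, where `|L|` is the length of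
the code of `L`. Its output is a number `E L w`; an output which is larger than the number `m` of
the strings means that the guess is rejected, and an output `k ≤ m` is a refutation of the threshold
pattern `k`.
* `sound`: no guess gives the refutation of a threshold pattern which the list really has,
* `complete`: if none of the `m ≥ q(n)` strings of the list, which have length at most `n`, is
  in `A`, then some guess gives the refutation of some threshold pattern. -/
structure Refuter (A : Set (List Bool)) (q ℓ : Polynomial ℕ)
    (E : List (List Bool) → List Bool → ℕ) : Prop where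
  poly : ∃ F : List Bool → List Bool, PolyTime F ∧
    ∀ (L : List (List Bool)) (w : List Bool), F (bits (L, w)) = bits (E L w)
  sound : ∀ (L : List (List Bool)) (w : List Bool), w.length = ℓ.eval (bits L).length →
    ¬ Pattern A L (E L w)
  complete : ∀ (L : List (List Bool)) (n : ℕ), (∀ x ∈ L, x.length ≤ n ∧ x ∉ A) →
    q.eval n ≤ L.length → ∃ w : List Bool, w.length = ℓ.eval (bits L).length ∧ E L w ≤ L.length

end Pool.Agent.H334R5.Nd
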